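import Pool.Agent.N479.SK.Kite

/-!
# Every cyclic kite is Ramsey

For every `a ∈ (-1, 1)`, in particular for every transcendental `a`, the kite `K_a` with the
vertices `(1, 0)`, `(-1, 0)`, `(a, √(1 - a²))`, `(a, -√(1 - a²))` is Ramsey.
-/

set_option autoImplicit false

namespace Pool.Agent.Results.MP_5f8029_co.KitesAreRamsey

open Pool.Agent.N479.SK Pool.Agent.N479.ER

/-- The inclusion of `ℝ^m` in `ℝ^n` by the first `m` coordinates (`m ≤ n`). -/
noncomputable def incl {m : ℕ} (n : ℕ) (x : EuclideanSpace ℝ (Fin m)) :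
    EuclideanSpace ℝ (Fin n) :=
  WithLp.toLp 2 (fun j : Fin n => if h : (j : ℕ) < m then x ⟨j, h⟩ else 0)

/-- `X ⊆ ℝ^m` is Ramsey: for every positive integer `k` there is `n ≥ m` such that for every
colouring `c` of `ℝ^n` with `k` colours there is an isometry `φ` of `ℝ^n` for which `φ X` is
monochromatic. -/
def IsRamsey {m : ℕ} (X : Set (EuclideanSpace ℝ (Fin m))) : Prop :=
  ∀ k : ℕ, 0 < k → ∃ n : ℕ, m ≤ n ∧ ∀ c : EuclideanSpace ℝ (Fin n) → Fin k,
    ∃ φ : EuclideanSpace ℝ (Fin n) ≃ᵢ EuclideanSpace ℝ (Fin n), ∃ i : Fin k,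
      ∀ x ∈ X, c (φ (incl n x)) = i

/-- The kite `K_a`, inscribed in the unit circle. -/
noncomputable def kite (a : ℝ) : Set (EuclideanSpace ℝ (Fin 2)) :=
  {!₂[1, 0], !₂[-1, 0], !₂[a, √(1 - a ^ 2)], !₂[a, -√(1 - a ^ 2)]}

/-- For every `a ∈ (-1, 1)`, transcendental or not, the kite `K_a` is Ramsey. -/
theorem result : ∀ a : ℝ, -1 < a → a < 1 → IsRamsey (kite a) := by
  intro a h1 h2 k hk
  have : Nonempty (Fin k) := ⟨⟨0, hk⟩⟩
  have hs : √(1 - a ^ 2) ^ 2 = 1 - a ^ 2 := Real.sq_sqrt (by nlinarith)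
  set s := √(1 - a ^ 2) with hs'
  let x : Fin 4 → EuclideanSpace ℝ (Fin 2) := ![!₂[1, 0], !₂[-1, 0], !₂[a, s], !₂[a, -s]]
  have d01 : sq (x 0).ofLp (x 1).ofLp = 4 := by
    simp [N479.ER.sq, x, Fin.sum_univ_two]; norm_num
  have d02 : sq (x 0).ofLp (x 2).ofLp = 2 * (1 - a) := by
    simp [N479.ER.sq, x, Fin.sum_univ_two]; linear_combination hs
  have d03 : sq (x 0).ofLp (x 3).ofLp = 2 * (1 - a) := by
    simp [N479.ER.sq, x, Fin.sum_univ_two]; linear_combination hs
  have d12 : sq (x 1).ofLp (x 2).ofLp = 2 * (1 + a) := by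
    simp [N479.ER.sq, x, Fin.sum_univ_two]; linear_combination hs
  have d13 : sq (x 1).ofLp (x 3).ofLp = 2 * (1 + a) := by
    simp [N479.ER.sq, x, Fin.sum_univ_two]; linear_combination hs
  have d23 : sq (x 2).ofLp (x 3).ofLp = 4 * (1 - a ^ 2) := by
    simp [N479.ER.sq, x, Fin.sum_univ_two]; linear_combination 4 * hs
  -- it suffices to find four points with the right distances
  have key : ∃ (ι : Type) (_ : Fintype ι), ∀ c : (ι → ℝ) → Fin k, ∃ f : Fin 4 → ι → ℝ,
      (sq (f 0) (f 1) = 4 ∧ sq (f 0) (f 2) = 2 * (1 - a) ∧ sq (f 0) (f 3) = 2 * (1 - a) ∧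
        sq (f 1) (f 2) = 2 * (1 + a) ∧ sq (f 1) (f 3) = 2 * (1 + a) ∧
        sq (f 2) (f 3) = 4 * (1 - a ^ 2)) ∧ ∀ p p', c (f p) = c (f p') := by
    rcases lt_trichotomy a 0 with ha | ha | ha
    · obtain ⟨ι, i, H⟩ := kite_neg (κ := Fin k) a h1 ha
      refine ⟨ι, i, fun c => ?_⟩
      obtain ⟨g, z, e1, e2, e3, e4, e5, e6, hc⟩ := H c
      refine ⟨![g 0, z, g 1, g 2], ⟨?_, e1, e2, e5, e6, e3⟩, ?_⟩
      · change sq (g 0) z = 4
        rw [sq_comm, e4]
      · have hall : ∀ p, c ((![g 0, z, g 1, g 2] : Fin 4 → ι → ℝ) p) = c z := by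
          intro p
          fin_cases p
          · exact hc 0
          · rfl
          · exact hc 1
          · exact hc 2
        intro p p'
        rw [hall, hall]
    · obtain ⟨ι, i, H⟩ := kite_zero (κ := Fin k)
      refine ⟨ι, i, fun c => ?_⟩
      obtain ⟨f, e1, e2, e3, e4, e5, e6, hc⟩ := H c
      refine ⟨f, ⟨e1, ?_, ?_, ?_, ?_, ?_⟩, hc⟩
      · rw [e2, ha]; norm_num
      · rw [e3, ha]; norm_num
      · rw [e4, ha]; norm_num
      · rw [e5, ha]; norm_num
      · rw [e6, ha]; norm_num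
    · obtain ⟨ι, i, H⟩ := kite_neg (κ := Fin k) (-a) (by linarith) (by linarith)
      refine ⟨ι, i, fun c => ?_⟩
      obtain ⟨g, z, e1, e2, e3, e4, e5, e6, hc⟩ := H c
      refine ⟨![z, g 0, g 1, g 2], ⟨e4, ?_, ?_, ?_, ?_, ?_⟩, ?_⟩
      · change sq z (g 1) = 2 * (1 - a)
        rw [e5]; ring
      · change sq z (g 2) = 2 * (1 - a)
        rw [e6]; ring
      · change sq (g 0) (g 1) = 2 * (1 + a)
        rw [e1]; ring
      · change sq (g 0) (g 2) = 2 * (1 + a)
        rw [e2]; ring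
      · change sq (g 1) (g 2) = 4 * (1 - a ^ 2)
        rw [e3]; ring
      · have hall : ∀ p, c ((![z, g 0, g 1, g 2] : Fin 4 → ι → ℝ) p) = c z := by
          intro p
          fin_cases p
          · rfl
          · exact hc 0
          · exact hc 1
          · exact hc 2
        intro p p'
        rw [hall, hall]
  obtain ⟨n, hn, H⟩ := ramsey_of (k := k) x (by
    obtain ⟨ι, i, H⟩ := key
    refine ⟨ι, i, fun c => ?_⟩
    obtain ⟨f, ⟨e1, e2, e3, e4, e5, e6⟩, hc⟩ := H c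
    refine ⟨f, fun p p' => ?_, hc⟩
    have d : ∀ p p' : Fin 4, sq (f p') (f p) = sq (x p').ofLp (x p).ofLp →
        sq (f p) (f p') = sq (x p).ofLp (x p').ofLp := by
      intro p p' h
      rw [sq_comm, h, sq_comm]
    fin_cases p <;> fin_cases p'
    · simp [sq_self]
    · exact e1.trans d01.symm
    · exact e2.trans d02.symm
    · exact e3.trans d03.symm
    · exact d _ _ (e1.trans d01.symm)
    · simp [sq_self]
    · exact e4.trans d12.symm
    · exact e5.trans d13.symm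
    · exact d _ _ (e2.trans d02.symm)
    · exact d _ _ (e4.trans d12.symm)
    · simp [sq_self]
    · exact e6.trans d23.symm
    · exact d _ _ (e3.trans d03.symm)
    · exact d _ _ (e5.trans d13.symm)
    · exact d _ _ (e6.trans d23.symm)
    · simp [sq_self])
  refine ⟨n, hn, fun c => ?_⟩
  obtain ⟨φ, hφ⟩ := H c
  refine ⟨φ, c (φ (incl n (x 0))), fun y hy => ?_⟩
  have hy' : ∃ p, y = x p := by
    simp only [kite, Set.mem_insert_iff, Set.mem_singleton_iff] at hy
    rcases hy with h | h | h | h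
    · exact ⟨0, h⟩
    · exact ⟨1, h⟩
    · exact ⟨2, h⟩
    · exact ⟨3, h⟩
  obtain ⟨p, rfl⟩ := hy'
  exact hφ p 0

end Pool.Agent.Results.MP_5f8029_co.KitesAreRamsey
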